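import Mathlib

namespace Pool.Agent.H.MP_8481ed_ag

open MvPolynomial Module

variable {k : Type*} [Field k]

theorem finrank_hom_le (d : ℕ) :
    finrank k (homogeneousSubmodule (Fin 3) k d) ≤ (d + 2).choose d := by
  classical
  have hle : homogeneousSubmodule (Fin 3) k d ≤
      Submodule.span k ((((Finset.univ : Finset (Fin 3)).finsuppAntidiag d).image
        (fun s => (monomial s (1 : k) : MvPolynomial (Fin 3) k)) : Finset _) : Set _) := by
    intro F hF
    rw [mem_homogeneousSubmodule] at hF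
    rw [F.as_sum]
    refine Submodule.sum_mem _ fun s hs => ?_
    have h1 : (monomial s (coeff s F) : MvPolynomial (Fin 3) k) = coeff s F • monomial s 1 := by
      rw [smul_monomial]; simp
    rw [h1]
    refine Submodule.smul_mem _ _ (Submodule.subset_span ?_)
    simp only [Finset.coe_image, Set.mem_image, Finset.mem_coe]
    refine ⟨s, ?_, rfl⟩
    rw [Finset.mem_finsuppAntidiag]
    refine ⟨?_, Finset.subset_univ _⟩
    have h2 := hF (mem_support_iff.mp hs)
    rw [← h2, ← Finsupp.degree_eq_sum, Finsupp.degree_eq_weight_one]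
    rfl
  refine (Submodule.finrank_mono hle).trans ?_
  refine (finrank_span_finset_le_card _).trans ?_
  refine Finset.card_image_le.trans ?_
  rw [Finset.card_finsuppAntidiag_nat_eq_choose]
  simp only [Finset.card_univ, Fintype.card_fin]
  rw [show 3 + d - 1 = d + 2 by omega]

instance (d : ℕ) : Module.Finite k (homogeneousSubmodule (Fin 3) k d) :=
  Module.Finite.iff_fg.mpr (homogeneousSubmodule_fg (Fin 3) k d)

/-- product of the four linear forms -/
noncomputable def Q (a : Fin 5 → k) (s : Fin 3) : MvPolynomial (Fin 3) k :=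
  ∏ i : Fin 4, (X s - C (a i.castSucc) * X 2)

/-- product of three of them -/
noncomputable def L (a : Fin 5 → k) (s : Fin 3) (i : Fin 4) : MvPolynomial (Fin 3) k :=
  ∏ j ∈ Finset.univ.erase i, (X s - C (a j.castSucc) * X 2)

theorem lin_hom (c : k) (s : Fin 3) :
    (X s - C c * X 2 : MvPolynomial (Fin 3) k).IsHomogeneous 1 :=
  (isHomogeneous_X _ _).sub ((isHomogeneous_X _ _).C_mul _)

theorem Q_hom (a : Fin 5 → k) (s : Fin 3) : (Q a s).IsHomogeneous 4 := by
  have := IsHomogeneous.prod (Finset.univ : Finset (Fin 4))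
    (fun i => (X s - C (a i.castSucc) * X 2 : MvPolynomial (Fin 3) k)) (fun _ => 1)
    (fun i _ => lin_hom _ _)
  simpa [Q] using this

theorem L_hom (a : Fin 5 → k) (s : Fin 3) (i : Fin 4) : (L a s i).IsHomogeneous 3 := by
  have := IsHomogeneous.prod (Finset.univ.erase i : Finset (Fin 4))
    (fun i => (X s - C (a i.castSucc) * X 2 : MvPolynomial (Fin 3) k)) (fun _ => 1)
    (fun i _ => lin_hom _ _)
  simpa [L, Finset.card_erase_of_mem] using this

theorem Q_eq (a : Fin 5 → k) (s : Fin 3) (i : Fin 4) :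
    Q a s = (X s - C (a i.castSucc) * X 2) * L a s i := by
  unfold Q L
  rw [Finset.mul_prod_erase _ (fun j : Fin 4 => (X s - C (a j.castSucc) * X 2 :
    MvPolynomial (Fin 3) k)) (Finset.mem_univ i)]

/-- the grid vector -/
def pt (a : Fin 5 → k) (i j : Fin 4) : Fin 3 → k := ![a i.castSucc, a j.castSucc, 1]

theorem aeval_Q (a : Fin 5 → k) (s : Fin 3) (v : Fin 3 → k) :
    aeval v (Q a s) = ∏ i : Fin 4, (v s - a i.castSucc * v 2) := by
  simp [Q, map_prod]

theorem aeval_L (a : Fin 5 → k) (s : Fin 3) (i : Fin 4) (v : Fin 3 → k) :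
    aeval v (L a s i) = ∏ j ∈ Finset.univ.erase i, (v s - a j.castSucc * v 2) := by
  simp [L, map_prod]

theorem Q_zero (a : Fin 5 → k) (s : Fin 3) (v : Fin 3 → k) (i : Fin 4)
    (h : v s = a i.castSucc * v 2) : aeval v (Q a s) = 0 := by
  rw [aeval_Q]
  exact Finset.prod_eq_zero (Finset.mem_univ i) (by rw [h, sub_self])

theorem L_zero (a : Fin 5 → k) (s : Fin 3) (v : Fin 3 → k) (i j : Fin 4) (hij : i ≠ j)
    (h : v s = a i.castSucc * v 2) : aeval v (L a s j) = 0 := by
  rw [aeval_L]
  exact Finset.prod_eq_zero (i := i) (by simp [hij]) (by rw [h, sub_self])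

theorem L_ne (a : Fin 5 → k) (ha : Function.Injective a) (s : Fin 3) (v : Fin 3 → k) (i : Fin 4)
    (h : v s = a i.castSucc) (h2 : v 2 = 1) : aeval v (L a s i) ≠ 0 := by
  rw [aeval_L, Finset.prod_ne_zero_iff]
  intro j hj
  rw [h, h2, mul_one, sub_ne_zero]
  intro h3
  exact (Finset.ne_of_mem_erase hj) (Fin.castSucc_injective _ (ha h3)).symm

theorem Q_ne (a : Fin 5 → k) (ha : Function.Injective a) (s : Fin 3) (v : Fin 3 → k)
    (h : v s = a 4) (h2 : v 2 = 1) : aeval v (Q a s) ≠ 0 := by
  rw [aeval_Q, Finset.prod_ne_zero_iff]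
  intro j _
  rw [h, h2, mul_one, sub_ne_zero]
  intro h3
  exact (Fin.castSucc_ne_last j) (ha h3).symm

/-- linear form -/
noncomputable def lin : (Fin 3 → k) →ₗ[k] MvPolynomial (Fin 3) k :=
  Fintype.linearCombination k (fun s => X s)

theorem lin_hom' (l : Fin 3 → k) : (lin l).IsHomogeneous 1 := by
  rw [← mem_homogeneousSubmodule, homogeneousSubmodule_one_eq_span_X, lin,
    Fintype.linearCombination_apply]
  exact Submodule.sum_mem _ fun s _ => Submodule.smul_mem _ _ (Submodule.subset_span ⟨s, rfl⟩)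

theorem aeval_lin (l v : Fin 3 → k) : aeval v (lin l) = l 0 * v 0 + l 1 * v 1 + l 2 * v 2 := by
  simp [lin, Fintype.linearCombination_apply, Fin.sum_univ_three]

/-- six quintics -/
noncomputable def phi5 (a : Fin 5 → k) :
    ((Fin 3 → k) × (Fin 3 → k)) →ₗ[k] MvPolynomial (Fin 3) k :=
  ((LinearMap.mulLeft k (Q a 0)).comp lin).coprod ((LinearMap.mulLeft k (Q a 1)).comp lin)

theorem phi5_apply (a : Fin 5 → k) (l : (Fin 3 → k) × (Fin 3 → k)) :
    phi5 a l = Q a 0 * lin l.1 + Q a 1 * lin l.2 := by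
  simp [phi5]

theorem phi5_inj (a : Fin 5 → k) (ha : Function.Injective a) : Function.Injective (phi5 a) := by
  rw [injective_iff_map_eq_zero]
  rintro ⟨l, l'⟩ h
  rw [phi5_apply] at h
  have key : ∀ v : Fin 3 → k, aeval v (Q a 0) * (l 0 * v 0 + l 1 * v 1 + l 2 * v 2) +
      aeval v (Q a 1) * (l' 0 * v 0 + l' 1 * v 1 + l' 2 * v 2) = 0 := by
    intro v
    have := congrArg (aeval v) h
    simpa only [map_add, map_mul, aeval_lin, map_zero] using this
  have h01 : a 0 - a 1 ≠ 0 := sub_ne_zero.mpr fun h => by simpa using ha h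
  have e1 : l 0 = 0 := by
    have := key ![1, 0, 0]
    simpa [aeval_Q] using this
  have e2 : l' 1 = 0 := by
    have := key ![0, 1, 0]
    simpa [aeval_Q] using this
  have f : ∀ j : Fin 4, l 1 * a j.castSucc + l 2 = 0 := by
    intro j
    have h1 := key ![a 4, a j.castSucc, 1]
    rw [Q_zero a 1 _ j (by simp), zero_mul, add_zero, e1] at h1
    have h2 := (mul_eq_zero.mp h1).resolve_left (Q_ne a ha 0 _ (by simp) (by simp))
    simpa using h2
  have g : ∀ j : Fin 4, l' 0 * a j.castSucc + l' 2 = 0 := by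
    intro j
    have h1 := key ![a j.castSucc, a 4, 1]
    rw [Q_zero a 0 _ j (by simp), zero_mul, zero_add, e2] at h1
    have h2 := (mul_eq_zero.mp h1).resolve_left (Q_ne a ha 1 _ (by simp) (by simp))
    simpa using h2
  have f0 := f 0
  have f1 := f 1
  have g0 := g 0
  have g1 := g 1
  simp only [Fin.castSucc_zero, Fin.castSucc_one] at f0 f1 g0 g1
  have e3 : l 1 = 0 := by
    have : l 1 * (a 0 - a 1) = 0 := by linear_combination f0 - f1
    exact (mul_eq_zero.mp this).resolve_right h01
  have e4 : l' 0 = 0 := by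
    have : l' 0 * (a 0 - a 1) = 0 := by linear_combination g0 - g1
    exact (mul_eq_zero.mp this).resolve_right h01
  have e5 : l 2 = 0 := by rw [e3] at f0; simpa using f0
  have e6 : l' 2 = 0 := by rw [e4] at g0; simpa using g0
  ext s <;> fin_cases s <;> simp [e1, e2, e3, e4, e5, e6]

/-- interpolation sextic -/
noncomputable def P (a : Fin 5 → k) : (Fin 4 × Fin 4 → k) →ₗ[k] MvPolynomial (Fin 3) k :=
  Fintype.linearCombination k (fun ij => L a 0 ij.1 * L a 1 ij.2)

theorem P_hom (a : Fin 5 → k) (c : Fin 4 × Fin 4 → k) : (P a c).IsHomogeneous 6 := by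
  rw [← mem_homogeneousSubmodule, P, Fintype.linearCombination_apply]
  exact Submodule.sum_mem _ fun s _ => Submodule.smul_mem _ _ ((L_hom a 0 _).mul (L_hom a 1 _))

theorem P_zero (a : Fin 5 → k) (ha : Function.Injective a) (c : Fin 4 × Fin 4 → k)
    (h : ∀ i j, aeval (pt a i j) (P a c) = 0) : c = 0 := by
  ext ⟨i, j⟩
  have h1 := h i j
  rw [P, Fintype.linearCombination_apply, map_sum, Finset.sum_eq_single (i, j)] at h1
  · rw [map_smul, map_mul, smul_eq_mul] at h1
    exact (mul_eq_zero.mp h1).resolve_right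
      (mul_ne_zero (L_ne a ha 0 _ i (by simp [pt]) (by simp [pt]))
        (L_ne a ha 1 _ j (by simp [pt]) (by simp [pt])))
  · rintro ⟨i', j'⟩ _ hne
    rw [map_smul, map_mul]
    by_cases hi : i = i'
    · have hj : j ≠ j' := fun hj => hne (by rw [hi, hj])
      rw [L_zero a 1 _ j j' hj (by simp [pt]), mul_zero, smul_zero]
    · rw [L_zero a 0 _ i i' hi (by simp [pt]), zero_mul, smul_zero]
  · simp

/-- forty-eight forms of degree ten -/
noncomputable def phi10 (a : Fin 5 → k) :
    ((Fin 4 × Fin 4 → k) × (Fin 4 × Fin 4 → k) × (Fin 4 × Fin 4 → k)) →ₗ[k]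
      MvPolynomial (Fin 3) k :=
  ((LinearMap.mulLeft k (X 2 ^ 4)).comp (P a)).coprod
    (((LinearMap.mulLeft k (Q a 0)).comp (P a)).coprod ((LinearMap.mulLeft k (Q a 1)).comp (P a)))

theorem phi10_apply (a : Fin 5 → k) (c) :
    phi10 a c = X 2 ^ 4 * P a c.1 + (Q a 0 * P a c.2.1 + Q a 1 * P a c.2.2) := by
  simp [phi10]

theorem phi10_hom (a : Fin 5 → k) (c) : (phi10 a c).IsHomogeneous 10 := by
  rw [phi10_apply]
  refine IsHomogeneous.add ?_ (IsHomogeneous.add ?_ ?_)
  · exact (isHomogeneous_X_pow _ _).mul (P_hom a _)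
  · exact (Q_hom a 0).mul (P_hom a _)
  · exact (Q_hom a 1).mul (P_hom a _)

theorem dQ_same (a : Fin 5 → k) (s : Fin 3) (hs : s ≠ 2) (v : Fin 3 → k) (i : Fin 4)
    (h : v s = a i.castSucc * v 2) : aeval v (pderiv s (Q a s)) = aeval v (L a s i) := by
  rw [Q_eq a s i, Derivation.leibniz]
  simp [h, pderiv_X, hs.symm]

theorem dQ_other (a : Fin 5 → k) (s t : Fin 3) (hst : s ≠ t) (ht : t ≠ 2) (v : Fin 3 → k)
    (i : Fin 4) (h : v s = a i.castSucc * v 2) : aeval v (pderiv t (Q a s)) = 0 := by
  rw [Q_eq a s i, Derivation.leibniz]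
  simp [h, pderiv_X, ht.symm, hst]

theorem phi10_zero (a : Fin 5 → k) (ha : Function.Injective a) (c)
    (h0 : ∀ i j, aeval (pt a i j) (phi10 a c) = 0)
    (h1 : ∀ i j s, aeval (pt a i j) (pderiv s (phi10 a c)) = 0) : c = 0 := by
  obtain ⟨c0, c1, c2⟩ := c
  have q0 : ∀ i j, aeval (pt a i j) (Q a 0) = 0 := fun i j => Q_zero a 0 _ i (by simp [pt])
  have q1 : ∀ i j, aeval (pt a i j) (Q a 1) = 0 := fun i j => Q_zero a 1 _ j (by simp [pt])
  have e0 : c0 = 0 := by
    refine P_zero a ha _ fun i j => ?_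
    have := h0 i j
    rw [phi10_apply] at this
    simp only [map_add, map_mul, q0, q1, zero_mul, add_zero, map_pow, aeval_X] at this
    simpa [pt] using this
  subst e0
  have e1 : c1 = 0 := by
    refine P_zero a ha _ fun i j => ?_
    have := h1 i j 0
    rw [phi10_apply] at this
    simp only [map_zero, mul_zero, zero_add, map_add, Derivation.leibniz, smul_eq_mul, map_mul,
      q0, q1, zero_mul] at this
    rw [dQ_same a 0 (by decide) _ i (by simp [pt]),
      dQ_other a 1 0 (by decide) (by decide) _ j (by simp [pt]), mul_zero, add_zero] at this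
    exact (mul_eq_zero.mp this).resolve_right (L_ne a ha 0 _ i (by simp [pt]) (by simp [pt]))
  have e2 : c2 = 0 := by
    refine P_zero a ha _ fun i j => ?_
    have := h1 i j 1
    rw [phi10_apply] at this
    simp only [map_zero, mul_zero, zero_add, map_add, Derivation.leibniz, smul_eq_mul, map_mul,
      q0, q1, zero_mul] at this
    rw [dQ_same a 1 (by decide) _ j (by simp [pt]),
      dQ_other a 0 1 (by decide) (by decide) _ i (by simp [pt]), mul_zero, zero_add] at this
    exact (mul_eq_zero.mp this).resolve_right (L_ne a ha 1 _ j (by simp [pt]) (by simp [pt]))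
  simp [e1, e2]

theorem sq_vanish (V : Set (Fin 3 → k)) (v : Fin 3 → k) (hv : v ∈ V) (F : MvPolynomial (Fin 3) k)
    (hF : F ∈ vanishingIdeal k V ^ 2) :
    aeval v F = 0 ∧ ∀ s, aeval v (pderiv s F) = 0 := by
  rw [pow_two] at hF
  refine Submodule.mul_induction_on hF ?_ ?_
  · intro f hf g hg
    have h1 := hf v hv
    have h2 := hg v hv
    refine ⟨by rw [map_mul, h1, zero_mul], fun s => ?_⟩
    rw [Derivation.leibniz, smul_eq_mul, smul_eq_mul, map_add, map_mul, map_mul, h1, h2,
      zero_mul, zero_mul, add_zero]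
  · intro f g hf hg
    refine ⟨by rw [map_add, hf.1, hg.1, add_zero], fun s => ?_⟩
    rw [map_add, map_add, hf.2, hg.2, add_zero]

theorem lower (a : Fin 5 → k) (ha : Function.Injective a) (K : Submodule k (MvPolynomial (Fin 3) k))
    (hK : K ≤ homogeneousSubmodule (Fin 3) k 5)
    (h : ∀ F : MvPolynomial (Fin 3) k, F.IsHomogeneous 5 →
      (∀ i j (t : k), aeval (t • pt a i j) F = 0) → F ∈ K) :
    6 ≤ finrank k K := by
  have hfin : Module.Finite k K := Submodule.finiteDimensional_of_le hK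
  have hr : LinearMap.range (phi5 a) ≤ K := by
    rintro _ ⟨l, rfl⟩
    refine h _ ?_ fun i j t => ?_
    · rw [phi5_apply]
      exact ((Q_hom a 0).mul (lin_hom' _)).add ((Q_hom a 1).mul (lin_hom' _))
    · rw [phi5_apply, map_add, map_mul, map_mul, Q_zero a 0 _ i (by simp [pt, mul_comm]),
        Q_zero a 1 _ j (by simp [pt, mul_comm]), zero_mul, zero_mul, add_zero]
  have h1 := Submodule.finrank_mono hr
  rw [LinearMap.finrank_range_of_inj (phi5_inj a ha)] at h1
  simpa using h1

theorem upper (a : Fin 5 → k) (ha : Function.Injective a) (K : Submodule k (MvPolynomial (Fin 3) k))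
    (hK : K ≤ homogeneousSubmodule (Fin 3) k 10)
    (h : ∀ F ∈ K, ∀ i j, aeval (pt a i j) F = 0 ∧ ∀ s, aeval (pt a i j) (pderiv s F) = 0) :
    finrank k K ≤ 18 := by
  have hfin : Module.Finite k K := Submodule.finiteDimensional_of_le hK
  have hinj : Function.Injective (phi10 a) := by
    rw [injective_iff_map_eq_zero]
    intro c hc
    exact phi10_zero a ha c (fun i j => by rw [hc, map_zero])
      (fun i j s => by rw [hc, map_zero, map_zero])
  have hr : LinearMap.range (phi10 a) ≤ homogeneousSubmodule (Fin 3) k 10 := by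
    rintro _ ⟨c, rfl⟩
    exact phi10_hom a c
  have hbot : K ⊓ LinearMap.range (phi10 a) = ⊥ := by
    rw [eq_bot_iff]
    rintro F ⟨hF, c, rfl⟩
    rw [phi10_zero a ha c (fun i j => (h _ hF i j).1) (fun i j => (h _ hF i j).2), map_zero]
    exact Submodule.zero_mem _
  have h1 := Submodule.finrank_sup_add_finrank_inf_eq K (LinearMap.range (phi10 a))
  rw [hbot, finrank_bot, add_zero, LinearMap.finrank_range_of_inj hinj] at h1
  have h2 := (Submodule.finrank_mono (sup_le hK hr)).trans (finrank_hom_le 10)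
  rw [h1] at h2
  have h3 : (10 + 2).choose 10 = 66 := by decide
  simp only [finrank_prod, finrank_fintype_fun_eq_card, Fintype.card_prod, Fintype.card_fin] at h2
  omega

end Pool.Agent.H.MP_8481ed_ag
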